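import Pool.Agent.Y36.EG.Low

set_option autoImplicit false

namespace Pool.Agent.Y36.EG

open Real Subgroup Filter Topology
open scoped Pointwise

/-- the affine group of the rational line -/
@[ext] structure Aff where
  m : ℚˣ
  t : ℚ

namespace Aff

instance : Mul Aff := ⟨fun x y => ⟨x.m * y.m, (x.m : ℚ) * y.t + x.t⟩⟩

instance : One Aff := ⟨⟨1, 0⟩⟩

instance : Inv Aff := ⟨fun x => ⟨x.m⁻¹, -(((x.m⁻¹ : ℚˣ) : ℚ) * x.t)⟩⟩

@[simp] lemma mul_m (x y : Aff) : (x * y).m = x.m * y.m := rfl

@[simp] lemma mul_t (x y : Aff) : (x * y).t = (x.m : ℚ) * y.t + x.t := rfl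

@[simp] lemma one_m : (1 : Aff).m = 1 := rfl

@[simp] lemma one_t : (1 : Aff).t = 0 := rfl

@[simp] lemma inv_m (x : Aff) : (x⁻¹).m = x.m⁻¹ := rfl

@[simp] lemma inv_t (x : Aff) : (x⁻¹).t = -(((x.m⁻¹ : ℚˣ) : ℚ) * x.t) := rfl

instance : Group Aff := Group.ofLeftAxioms
  (by
    intro x y z
    apply Aff.ext
    · simp [mul_assoc]
    · simp only [mul_t, mul_m, Units.val_mul]
      ring)
  (by
    intro x
    apply Aff.ext
    · simp
    · simp)
  (by
    intro x
    apply Aff.ext
    · simp
    · simp)

/-- the action on the line -/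
def act (x : Aff) (q : ℚ) : ℚ := (x.m : ℚ) * q + x.t

lemma act_mul (x y : Aff) (q : ℚ) : act (x * y) q = act x (act y q) := by
  simp only [act, mul_m, mul_t, Units.val_mul]
  ring

lemma act_one (q : ℚ) : act 1 q = q := by
  simp [act]

/-- the linear part -/
def lin : Aff →* ℚˣ where
  toFun x := x.m
  map_one' := rfl
  map_mul' _ _ := rfl

lemma derived : derivedSeries Aff 2 = ⊥ := by
  have h1 : derivedSeries ℚˣ 1 = ⊥ :=
    derived_ext (Q := PUnit.{1}) (1 : ℚˣ →* PUnit.{1}) (k := 0) (Subsingleton.elim _ _)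
      (fun x y _ _ => mul_comm x y)
  refine derived_ext lin h1 ?_
  intro x y hx hy
  have hx' : x.m = 1 := hx
  have hy' : y.m = 1 := hy
  apply Aff.ext
  · rw [mul_m, mul_m, mul_comm]
  · rw [mul_t, mul_t, hx', hy']
    simp [add_comm]

/-- multiplication by two -/
def z : Aff := ⟨Units.mk0 2 (by norm_num), 0⟩

/-- `x ↦ 1 - x` -/
def u : Aff := ⟨-1, 1⟩

lemma u_mul_u : u * u = 1 := by
  apply Aff.ext
  · simp [u]
  · simp [u]

lemma act_zinv (q : ℚ) : act z⁻¹ q = q / 2 := by
  simp [act, z]
  ring

lemma act_u (q : ℚ) : act u q = 1 - q := by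
  simp [act, u]
  ring

end Aff

section inv2

variable {G : Type} [Group G]

/-- the hom from `C2` given by an involution -/
def inv2 (g : G) (h : g * g = 1) : C2 →* G where
  toFun x := if x = 1 then 1 else g
  map_one' := by simp
  map_mul' := by
    intro x y
    rcases c2_cases x with rfl | rfl <;> rcases c2_cases y with rfl | rfl
    · simp
    · simp [gg_ne]
    · simp [gg_ne]
    · rw [gg_mul, if_pos rfl, if_neg gg_ne, h]

@[simp] lemma inv2_gg (g : G) (h : g * g = 1) : inv2 g h gg = g := by
  simp only [inv2, MonoidHom.coe_mk, OneHom.coe_mk, if_neg gg_ne]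

lemma inv2_comm (g g' : G) (h : g * g = 1) (h' : g' * g' = 1) (hc : g * g' = g' * g) (x y : C2) :
    Commute (inv2 g h x) (inv2 g' h' y) := by
  rcases c2_cases x with rfl | rfl
  · rw [map_one]; exact Commute.one_left _
  · rcases c2_cases y with rfl | rfl
    · rw [map_one]; exact Commute.one_right _
    · rw [inv2_gg, inv2_gg]; exact hc

end inv2

/-- the element `b` of the base group -/
def bb : Wr Aff := ⟨(Aff.z, Aff.z⁻¹), gg⟩

/-- the element `c` of the base group -/
def cc : Wr Aff := ⟨(Aff.u, Aff.z⁻¹ * Aff.u * Aff.z), 1⟩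

lemma bb_mul : bb * bb = 1 := by
  apply SemidirectProduct.ext
  · rw [SemidirectProduct.mul_left]
    simp [bb]
  · rw [SemidirectProduct.mul_right]
    exact gg_mul

lemma cc_mul : cc * cc = 1 := by
  apply SemidirectProduct.ext
  · rw [SemidirectProduct.mul_left]
    simp only [cc, sw_one, SemidirectProduct.one_left]
    rw [Prod.mk_mul_mk, Aff.u_mul_u]
    have : Aff.z⁻¹ * Aff.u * Aff.z * (Aff.z⁻¹ * Aff.u * Aff.z) =
      Aff.z⁻¹ * (Aff.u * Aff.u) * Aff.z := by group
    rw [this, Aff.u_mul_u]
    simp
  · rw [SemidirectProduct.mul_right]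
    exact mul_one _

lemma bb_cc : bb * cc = cc * bb := by
  apply SemidirectProduct.ext
  · rw [SemidirectProduct.mul_left, SemidirectProduct.mul_left]
    simp only [bb, cc, sw_one, sw_gg, Prod.mk_mul_mk]
    rw [Prod.mk.injEq]
    constructor <;> group
  · rw [SemidirectProduct.mul_right, SemidirectProduct.mul_right]
    exact mul_comm _ _

/-- the base of the tower -/
def base : Mk where
  G := Wr Aff
  α := SemidirectProduct.inr
  κ := MonoidHom.noncommCoprod (inv2 bb bb_mul) (inv2 cc cc_mul)
    (inv2_comm bb cc bb_mul cc_mul bb_cc)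

lemma base_κ (x y : C2) : base.κ (x, y) = inv2 bb bb_mul x * inv2 cc cc_mul y := rfl

lemma base_b : base.κ (gg, 1) = bb := by
  rw [base_κ, map_one, inv2_gg]
  exact mul_one _

lemma base_c : base.κ (1, gg) = cc := by
  rw [base_κ, map_one, inv2_gg]
  exact one_mul _

lemma base_derived : derivedSeries base.G 3 = ⊥ := derived_wr_bot Aff.derived

/-- first generator of the free semigroup -/
def f0 : Wr Aff := ⟨(Aff.z⁻¹, Aff.z), 1⟩

/-- second generator of the free semigroup -/
def f1 : Wr Aff := ⟨(Aff.u * Aff.z⁻¹, Aff.z⁻¹ * Aff.u * Aff.z * Aff.z), 1⟩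

lemma f0_eq : f0 = (SemidirectProduct.inr gg : Wr Aff) * bb := by
  apply SemidirectProduct.ext
  · rw [SemidirectProduct.mul_left]
    simp [bb, f0]
  · rw [SemidirectProduct.mul_right]
    exact gg_mul.symm

lemma f1_eq : f1 = cc * f0 := by
  apply SemidirectProduct.ext
  · rw [SemidirectProduct.mul_left]
    simp only [cc, f0, f1, sw_one, Prod.mk_mul_mk]
  · rw [SemidirectProduct.mul_right]
    exact (mul_one _).symm

/-- evaluation of a word -/
def ev (l : List Bool) : ℚ :=
  Aff.act (SemidirectProduct.left ((l.map (fun i : Bool => if i then f1 else f0)).prod)).1 (1 / 3)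

lemma ev_right (l : List Bool) :
    SemidirectProduct.right ((l.map (fun i : Bool => if i then f1 else f0)).prod) = 1 := by
  induction l with
  | nil => rfl
  | cons i l ih =>
    rw [List.map_cons, List.prod_cons, SemidirectProduct.mul_right, ih, mul_one]
    cases i <;> rfl

lemma ev_nil : ev [] = 1 / 3 := by
  have : ev [] = Aff.act 1 (1 / 3) := rfl
  rw [this, Aff.act_one]

lemma ev_false (l : List Bool) : ev (false :: l) = ev l / 2 := by
  rw [ev, List.map_cons, List.prod_cons, SemidirectProduct.mul_left]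
  simp only [Bool.false_eq_true, if_false]
  rw [show f0.right = 1 from rfl, sw_one, Prod.fst_mul, Aff.act_mul,
    show f0.left.1 = Aff.z⁻¹ from rfl, Aff.act_zinv]
  rfl

lemma ev_true (l : List Bool) : ev (true :: l) = 1 - ev l / 2 := by
  rw [ev, List.map_cons, List.prod_cons, SemidirectProduct.mul_left]
  simp only [if_true]
  rw [show f1.right = 1 from rfl, sw_one, Prod.fst_mul, Aff.act_mul,
    show f1.left.1 = Aff.u * Aff.z⁻¹ from rfl, Aff.act_mul, Aff.act_zinv, Aff.act_u]
  rfl

lemma ev_bounds (l : List Bool) : 0 < ev l ∧ ev l < 1 := by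
  induction l with
  | nil => rw [ev_nil]; norm_num
  | cons i l ih =>
    obtain ⟨h1, h2⟩ := ih
    cases i
    · rw [ev_false]; constructor <;> linarith
    · rw [ev_true]; constructor <;> linarith

lemma ev_inj : ∀ l l' : List Bool, l.length = l'.length → ev l = ev l' → l = l' := by
  intro l
  induction l with
  | nil =>
    intro l' hl _
    exact (List.length_eq_zero_iff.mp hl.symm).symm
  | cons i l ih =>
    intro l' hl he
    cases l' with
    | nil => simp at hl
    | cons j l' =>
      have hl' : l.length = l'.length := by simpa using hl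
      have b1 := ev_bounds l
      have b2 := ev_bounds l'
      cases i <;> cases j
      · rw [ev_false, ev_false] at he
        rw [ih l' hl' (by linarith)]
      · rw [ev_false, ev_true] at he
        exfalso
        linarith
      · rw [ev_true, ev_false] at he
        exfalso
        linarith
      · rw [ev_true, ev_true] at he
        rw [ih l' hl' (by linarith)]

lemma base_free2 : base.Free2 := by
  have hb : bb ∈ closure base.S := by
    rw [← base_b]
    exact subset_closure (Mk.κ_mem _)
  have hc : cc ∈ closure base.S := by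
    rw [← base_c]
    exact subset_closure (Mk.κ_mem _)
  have h0 : f0 ∈ closure base.S := by
    rw [f0_eq]
    exact mul_mem (subset_closure Mk.a_mem) hb
  have h1 : f1 ∈ closure base.S := by
    rw [f1_eq]
    exact mul_mem hc h0
  refine ⟨f1, f0, h1, h0, fun l l' hl hll => ev_inj l l' hl ?_⟩
  have : ∀ (x y : Wr Aff), x = y → Aff.act (SemidirectProduct.left x).1 (1 / 3) =
    Aff.act (SemidirectProduct.left y).1 (1 / 3) := by
    rintro x _ rfl
    rfl
  exact this _ _ hll

end Pool.Agent.Y36.EG
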