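import Pool.Agent.Y36.EG.Poinc

set_option autoImplicit false

namespace Pool.Agent.Y36.EG

open Real Subgroup Filter Topology
open scoped Pointwise

namespace Mk

/-- the marked set `{1, a, b, c, d}` -/
def S (M : Mk) : Set M.G := {M.a} ∪ Set.range M.κ

variable {M : Mk}

lemma S_finite : M.S.Finite := (Set.finite_singleton _).union (Set.finite_range _)

lemma a_mem : M.a ∈ M.S := Or.inl rfl

lemma κ_mem (x : K4) : M.κ x ∈ M.S := Or.inr ⟨x, rfl⟩

lemma one_mem_S : (1 : M.G) ∈ M.S := by
  rw [← map_one M.κ]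
  exact κ_mem 1

lemma a_mul_a : M.a * M.a = 1 := by
  rw [a, ← map_mul, gg_mul, map_one]

lemma S_inv : (M.S)⁻¹ = M.S := by
  ext g
  rw [Set.mem_inv]
  constructor
  · rintro (h | ⟨x, hx⟩)
    · have h1 : g⁻¹ = M.a := h
      have h2 : g = M.a := by
        rw [← inv_inv g, h1]
        exact inv_eq_of_mul_eq_one_left a_mul_a
      exact Or.inl h2
    · refine Or.inr ⟨x⁻¹, ?_⟩
      rw [map_inv, hx, inv_inv]
  · rintro (h | ⟨x, hx⟩)
    · left
      have h1 : g = M.a := h
      rw [h1]
      exact inv_eq_of_mul_eq_one_left a_mul_a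
    · refine Or.inr ⟨x⁻¹, ?_⟩
      rw [map_inv, hx]

lemma rep_pow (m : ℕ) : ∀ g ∈ M.S ^ m, M.Rep g (8 * m) := by
  induction m with
  | zero =>
    intro g hg
    rw [pow_zero, Set.mem_one] at hg
    rw [hg]
    exact Rep.one
  | succ m ih =>
    intro g hg
    rw [pow_succ] at hg
    obtain ⟨x, hx, s, hs, rfl⟩ := Set.mem_mul.mp hg
    rcases hs with hs | ⟨y, rfl⟩
    · have h1 : s = M.a := hs
      rw [h1]
      exact (ih x hx).mul_a.mono (by omega)
    · exact ((ih x hx).mul_κ y).mono (by have := wt_le y; omega)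

lemma pow_finite (m : ℕ) : (M.S ^ m).Finite := by
  induction m with
  | zero => rw [pow_zero]; exact Set.finite_one
  | succ m ih => rw [pow_succ]; exact ih.mul S_finite

lemma card_le {l C : ℝ} (hl : 0 ≤ l) (h : M.PB l C) (m : ℕ) :
    (Nat.card ↥(M.S ^ m) : ℝ) ≤ C * exp (8 * l * m) := by
  classical
  set E := (pow_finite (M := M) m).toFinset with hE
  have h1 := h E (by
    intro g hg
    exact ⟨_, rep_pow m g ((pow_finite m).mem_toFinset.mp hg)⟩)
  have h2 : (E.card : ℝ) * exp (-(l * (8 * m : ℕ))) ≤ ∑ g ∈ E, exp (-(l * M.dd g)) := by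
    rw [← nsmul_eq_mul, ← Finset.sum_const]
    refine Finset.sum_le_sum (fun g hg => ?_)
    rw [exp_le_exp, neg_le_neg_iff]
    apply mul_le_mul_of_nonneg_left _ hl
    have := dd_le (rep_pow m g ((pow_finite m).mem_toFinset.mp hg))
    exact_mod_cast this
  have h3 : Nat.card ↥(M.S ^ m) = E.card := by
    rw [hE, Nat.card_coe_set_eq, Set.ncard_eq_toFinset_card _ (pow_finite m)]
  rw [h3]
  have h4 := h2.trans h1
  rw [exp_neg, ← div_eq_mul_inv, div_le_iff₀ (exp_pos _)] at h4
  refine h4.trans (le_of_eq ?_)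
  congr 2
  push_cast
  ring

/-- the closure contains two elements that generate a free semigroup -/
def Free2 (M : Mk) : Prop :=
  ∃ u v : M.G, u ∈ closure M.S ∧ v ∈ closure M.S ∧
    ∀ l l' : List Bool, l.length = l'.length →
      (l.map (fun i => if i then u else v)).prod = (l'.map (fun i => if i then u else v)).prod →
      l = l'

/-- right part -/
def rt (h : M.next.G) : C2 := SemidirectProduct.right h

/-- left part -/
def lf (h : M.next.G) : M.G × M.G := SemidirectProduct.left h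

lemma rt_mul (x y : M.next.G) : rt (x * y) = rt x * rt y := rfl

lemma lf_mul (x y : M.next.G) : lf (x * y) = lf x * (sw M.G (rt x)) (lf y) := rfl

lemma rt_inv (x : M.next.G) : rt x⁻¹ = (rt x)⁻¹ := rfl

lemma lf_inv (x : M.next.G) : lf x⁻¹ = (sw M.G (rt x)⁻¹) (lf x)⁻¹ := rfl

lemma rt_a : rt M.next.a = gg := rfl

lemma lf_a : lf M.next.a = 1 := rfl

lemma rt_κ (x : K4) : rt (M.next.κ x) = 1 := rfl

lemma lf_κ (x : K4) : lf (M.next.κ x) = (M.α (chi x), M.κ (omg x)) := rfl

lemma lift (g : M.G) (hg : g ∈ closure M.S) : ∃ h : M.next.G, h ∈ closure M.next.S ∧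
    rt h = 1 ∧ (lf h).2 = g := by
  induction hg using closure_induction with
  | mem x hx =>
    rcases hx with hx | ⟨x, rfl⟩
    · have h1 : x = M.a := hx
      refine ⟨M.next.a * M.next.κ (gg, 1) * M.next.a, ?_, ?_, ?_⟩
      · exact mul_mem (mul_mem (subset_closure a_mem) (subset_closure (κ_mem _)))
          (subset_closure a_mem)
      · rw [rt_mul, rt_mul, rt_a, rt_κ, mul_one, gg_mul]
      · rw [lf_mul, lf_mul, rt_mul, rt_a, rt_κ, mul_one, lf_a, map_one, mul_one, one_mul, lf_κ,
          sw_gg, h1]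
        simp only
        rw [show chi (gg, 1) = gg from by decide]
        rfl
    · refine ⟨M.next.κ (x.1 * x.2, x.1), subset_closure (κ_mem _), rt_κ _, ?_⟩
      rw [lf_κ]
      have h : ∀ x : K4, omg (x.1 * x.2, x.1) = x := by decide
      rw [h]
  | one => exact ⟨1, one_mem _, rfl, rfl⟩
  | mul x y _ _ hx hy =>
    obtain ⟨h, h1, h2, h3⟩ := hx
    obtain ⟨k, k1, k2, k3⟩ := hy
    refine ⟨h * k, mul_mem h1 k1, ?_, ?_⟩
    · rw [rt_mul, h2, k2, mul_one]
    · rw [lf_mul, h2, sw_one, Prod.snd_mul, h3, k3]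
  | inv x _ hx =>
    obtain ⟨h, h1, h2, h3⟩ := hx
    refine ⟨h⁻¹, inv_mem h1, ?_, ?_⟩
    · rw [rt_inv, h2, inv_one]
    · rw [lf_inv, h2, inv_one, sw_one, Prod.snd_inv, h3]

lemma free2_next (h : M.Free2) : M.next.Free2 := by
  obtain ⟨u, v, hu, hv, hf⟩ := h
  obtain ⟨u', hu1, hu2, hu3⟩ := lift u hu
  obtain ⟨v', hv1, hv2, hv3⟩ := lift v hv
  have key : ∀ l : List Bool,
      rt ((l.map (fun i : Bool => if i then u' else v')).prod) = 1 ∧
      (lf ((l.map (fun i : Bool => if i then u' else v')).prod)).2 =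
        (l.map (fun i : Bool => if i then u else v)).prod := by
    intro l
    induction l with
    | nil => exact ⟨rfl, rfl⟩
    | cons i l ih =>
      obtain ⟨h1, h2⟩ := ih
      rw [List.map_cons, List.prod_cons, List.map_cons, List.prod_cons, rt_mul, lf_mul, h1]
      cases i
      · simp only [Bool.false_eq_true, if_false]
        rw [hv2, sw_one, Prod.snd_mul, hv3, h2]
        exact ⟨mul_one _, rfl⟩
      · simp only [if_true]
        rw [hu2, sw_one, Prod.snd_mul, hu3, h2]
        exact ⟨mul_one _, rfl⟩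
  refine ⟨u', v', hu1, hv1, fun l l' hl hll => hf l l' hl ?_⟩
  rw [← (key l).2, ← (key l').2, hll]

lemma mem_pow_of_closure (g : M.G) (hg : g ∈ closure M.S) : ∃ n, g ∈ M.S ^ n := by
  induction hg using closure_induction with
  | mem x hx => exact ⟨1, by rwa [pow_one]⟩
  | one => exact ⟨0, by rw [pow_zero]; exact Set.mem_one.mpr rfl⟩
  | mul x y _ _ hx hy =>
    obtain ⟨m, hm⟩ := hx
    obtain ⟨n, hn⟩ := hy
    exact ⟨m + n, by rw [pow_add]; exact Set.mul_mem_mul hm hn⟩
  | inv x _ hx =>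
    obtain ⟨m, hm⟩ := hx
    refine ⟨m, ?_⟩
    rw [← S_inv, inv_pow, Set.mem_inv, inv_inv]
    exact hm

lemma pow_mono {m n : ℕ} (h : m ≤ n) : M.S ^ m ⊆ M.S ^ n :=
  Set.pow_subset_pow_right one_mem_S h

lemma card_ge (h : M.Free2) : ∃ j : ℕ, 0 < j ∧ ∀ k : ℕ, 2 ^ k ≤ Nat.card ↥(M.S ^ (j * k)) := by
  obtain ⟨u, v, hu, hv, hf⟩ := h
  obtain ⟨m, hm⟩ := mem_pow_of_closure u hu
  obtain ⟨n, hn⟩ := mem_pow_of_closure v hv
  refine ⟨m + n + 1, by omega, fun k => ?_⟩
  have hu' : u ∈ M.S ^ (m + n + 1) := pow_mono (by omega) hm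
  have hv' : v ∈ M.S ^ (m + n + 1) := pow_mono (by omega) hn
  have hmem : ∀ l : List Bool, (l.map (fun i => if i then u else v)).prod ∈
      M.S ^ ((m + n + 1) * l.length) := by
    intro l
    induction l with
    | nil => simp
    | cons i l ih =>
      rw [List.map_cons, List.prod_cons, List.length_cons, mul_add, mul_one, add_comm, pow_add]
      refine Set.mul_mem_mul ?_ ih
      cases i
      · simpa using hv'
      · simpa using hu'
  have : Finite ↥(M.S ^ ((m + n + 1) * k)) := (pow_finite _).to_subtype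
  let f : List.Vector Bool k → ↥(M.S ^ ((m + n + 1) * k)) := fun l =>
    ⟨(l.1.map (fun i => if i then u else v)).prod, by
      have := hmem l.1
      rwa [l.2] at this⟩
  have hinj : Function.Injective f := by
    intro l l' hll
    exact Subtype.ext (hf l.1 l'.1 (l.2.trans l'.2.symm) (congrArg Subtype.val hll))
  have := Nat.card_le_card_of_injective f hinj
  rwa [Nat.card_eq_fintype_card, card_vector, Fintype.card_bool] at this

end Mk

section derived

variable {G : Type} [Group G]

lemma derived_wr (k : ℕ) : derivedSeries (Wr G) (k + 1) ≤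
    ((derivedSeries G k).prod (derivedSeries G k)).map
      (SemidirectProduct.inl : G × G →* Wr G) := by
  induction k with
  | zero =>
    rw [zero_add, derivedSeries_one]
    have h1 : commutator (Wr G) ≤ (SemidirectProduct.rightHom : Wr G →* C2).ker :=
      Abelianization.commutator_subset_ker _
    refine h1.trans ?_
    rw [← SemidirectProduct.range_inl_eq_ker_rightHom]
    simp only [derivedSeries_zero]
    rintro _ ⟨x, rfl⟩
    exact ⟨x, ⟨Subgroup.mem_top _, Subgroup.mem_top _⟩, rfl⟩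
  | succ k ih =>
    rw [derivedSeries_succ (Wr G) (k + 1), derivedSeries_succ G k,
      ← Subgroup.commutator_prod_prod,
      Subgroup.map_commutator]
    exact Subgroup.commutator_mono ih ih

lemma derived_wr_bot {k : ℕ} (h : derivedSeries G k = ⊥) : derivedSeries (Wr G) (k + 1) = ⊥ := by
  rw [eq_bot_iff]
  refine (derived_wr k).trans ?_
  rw [h]
  rintro _ ⟨x, ⟨hx1, hx2⟩, rfl⟩
  have h1 : x = 1 := Prod.ext (Subgroup.mem_bot.mp hx1) (Subgroup.mem_bot.mp hx2)
  rw [h1, map_one]
  exact Subgroup.mem_bot.mpr rfl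

lemma derived_ext {Q : Type} [Group Q] (f : G →* Q) {k : ℕ} (h : derivedSeries Q k = ⊥)
    (hc : ∀ x y : G, f x = 1 → f y = 1 → x * y = y * x) : derivedSeries G (k + 1) = ⊥ := by
  have h1 : derivedSeries G k ≤ f.ker := by
    have h2 := map_derivedSeries_le_derivedSeries f k
    rw [h, Subgroup.map_le_iff_le_comap] at h2
    exact h2
  rw [derivedSeries_succ, eq_bot_iff]
  refine (Subgroup.commutator_mono h1 h1).trans ?_
  rw [Subgroup.commutator_le]
  intro x hx y hy
  rw [Subgroup.mem_bot, commutatorElement_eq_one_iff_mul_comm]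
  exact hc x y hx hy

end derived

end Pool.Agent.Y36.EG
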