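import Mathlib

set_option autoImplicit false

namespace Pool.Agent.Y36.EG

open Subgroup Filter Topology

/-- the group of order two -/
abbrev C2 : Type := Multiplicative (ZMod 2)

/-- the Klein four group -/
abbrev K4 : Type := C2 × C2

/-- the generator of `C2` -/
def gg : C2 := Multiplicative.ofAdd 1

/-- weight on `K4` : `b ↦ 8`, `c ↦ 5`, `d ↦ 3` -/
def wt (x : K4) : ℕ :=
  if x = (gg, 1) then 8 else if x = (1, gg) then 5 else if x = (gg, gg) then 3 else 0

/-- weight on `C2` -/
def wa (x : C2) : ℕ := if x = 1 then 0 else 7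

lemma wt_one : wt 1 = 0 := by decide

lemma wt_mul : ∀ x y : K4, wt (x * y) ≤ wt x + wt y := by decide

lemma wt_le : ∀ x : K4, wt x ≤ 8 := by decide

/-- `b, c ↦ gg`, `d ↦ 1` -/
def chi : K4 →* C2 where
  toFun x := x.1 * x.2
  map_one' := by decide
  map_mul' := by decide

/-- `b ↦ c ↦ d ↦ b` -/
def omg : K4 →* K4 where
  toFun x := (x.2, x.1 * x.2)
  map_one' := by decide
  map_mul' := by decide

lemma contr : ∀ x : K4, 6 * (wa (chi x) + wt (omg x)) ≤ 5 * (7 + wt x) := by decide

lemma c2_cases : ∀ x : C2, x = 1 ∨ x = gg := by decide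

lemma gg_ne : gg ≠ 1 := by decide

lemma gg_mul : gg * gg = 1 := by decide

section wreath

variable (G : Type) [Group G]

/-- the swap action of `C2` on `G × G` -/
def sw : C2 →* MulAut (G × G) where
  toFun x := if x = 1 then 1 else (MulEquiv.prodComm : G × G ≃* G × G)
  map_one' := by simp
  map_mul' := by
    intro x y
    rcases c2_cases x with rfl | rfl <;> rcases c2_cases y with rfl | rfl
    · simp
    · simp [gg_ne]
    · simp [gg_ne]
    · rw [gg_mul, if_pos rfl, if_neg gg_ne]
      ext z <;> rfl

/-- the wreath product `G ≀ C2` -/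
abbrev Wr : Type := (G × G) ⋊[sw G] C2

variable {G}

@[simp] lemma sw_one (p : G × G) : sw G 1 p = p := by simp [sw]

@[simp] lemma sw_gg (p : G × G) : sw G gg p = (p.2, p.1) := by
  simp only [sw, MonoidHom.coe_mk, OneHom.coe_mk, if_neg gg_ne]
  rfl

end wreath

/-- a group with marked images of `C2` and `K4` -/
structure Mk where
  G : Type
  [grp : Group G]
  α : C2 →* G
  κ : K4 →* G

attribute [instance] Mk.grp

namespace Mk

/-- the letter `a` -/
def a (M : Mk) : M.G := M.α gg

/-- the next group in the tower -/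
def next (M : Mk) : Mk where
  G := Wr M.G
  α := SemidirectProduct.inr
  κ := SemidirectProduct.inl.comp ((M.α.comp chi).prod (M.κ.comp omg))

/-- `g` is a product of letters with total weight at most `n` -/
inductive Rep (M : Mk) : M.G → ℕ → Prop
  | base (x : K4) (n : ℕ) (h : wt x ≤ n) : Rep M (M.κ x) n
  | step (g : M.G) (m : ℕ) (h : Rep M g m) (x : K4) (n : ℕ) (hn : m + 7 + wt x ≤ n) :
      Rep M (g * M.a * M.κ x) n

variable {M : Mk}

lemma Rep.mono {g : M.G} {m n : ℕ} (h : M.Rep g m) (hmn : m ≤ n) : M.Rep g n := by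
  cases h with
  | base x _ h => exact Rep.base x n (h.trans hmn)
  | step g m' h x _ hn => exact Rep.step g m' h x n (hn.trans hmn)

lemma Rep.one : M.Rep 1 0 := by
  have := Rep.base (M := M) 1 0 (by decide)
  rwa [map_one] at this

lemma Rep.mul_a {g : M.G} {n : ℕ} (h : M.Rep g n) : M.Rep (g * M.a) (n + 7) := by
  have := Rep.step g n h 1 (n + 7) (by rw [wt_one])
  rwa [map_one, mul_one] at this

lemma Rep.mul_α {g : M.G} {n : ℕ} (h : M.Rep g n) (x : C2) : M.Rep (g * M.α x) (n + wa x) := by
  rcases c2_cases x with rfl | rfl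
  · rw [map_one, mul_one]
    exact h.mono (by simp)
  · exact h.mul_a.mono (by simp [wa, gg_ne])

lemma Rep.mul_κ {g : M.G} {n : ℕ} (h : M.Rep g n) (x : K4) : M.Rep (g * M.κ x) (n + wt x) := by
  cases h with
  | base y _ h =>
    rw [← map_mul]
    exact Rep.base _ _ ((wt_mul y x).trans (by omega))
  | step g m h y _ hn =>
    rw [mul_assoc, ← map_mul]
    exact Rep.step g m h _ _ (by have := wt_mul y x; omega)

lemma next_contr {g : M.next.G} {n : ℕ} (h : M.next.Rep g n) :
    ∃ m0 m1, M.Rep (SemidirectProduct.left g).1 m0 ∧ M.Rep (SemidirectProduct.left g).2 m1 ∧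
      6 * (m0 + m1) ≤ 5 * (n + 7) := by
  induction h with
  | base x n h =>
    refine ⟨wa (chi x), wt (omg x), ?_, ?_, ?_⟩
    · have := (Rep.one (M := M)).mul_α (chi x)
      rw [one_mul, zero_add] at this
      exact this
    · have := (Rep.one (M := M)).mul_κ (omg x)
      rw [one_mul, zero_add] at this
      exact this
    · have := contr x
      omega
  | step g m h x n hn ih =>
    obtain ⟨m0, m1, h0, h1, h2⟩ := ih
    have hc := contr x
    have e1 : SemidirectProduct.left (g * M.next.a * M.next.κ x) =
        SemidirectProduct.left g *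
          (sw M.G (SemidirectProduct.right g * gg)) (M.α (chi x), M.κ (omg x)) := by
      have : ∀ k : Wr M.G, SemidirectProduct.left (k * (SemidirectProduct.inr gg : Wr M.G) *
          (SemidirectProduct.inl (M.α (chi x), M.κ (omg x)) : Wr M.G)) =
        SemidirectProduct.left k *
          (sw M.G (SemidirectProduct.right k * gg)) (M.α (chi x), M.κ (omg x)) := by
        intro k
        rw [SemidirectProduct.mul_left, SemidirectProduct.mul_left, SemidirectProduct.mul_right,
          SemidirectProduct.left_inr, SemidirectProduct.right_inr, SemidirectProduct.left_inl,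
          map_one, mul_one]
      exact this g
    rw [e1]
    rcases c2_cases (SemidirectProduct.right g * gg) with h3 | h3
    · rw [h3, sw_one]
      exact ⟨m0 + wa (chi x), m1 + wt (omg x), h0.mul_α _, h1.mul_κ _, by omega⟩
    · rw [h3, sw_gg]
      exact ⟨m0 + wt (omg x), m1 + wa (chi x), h0.mul_κ _, h1.mul_α _, by omega⟩

end Mk

end Pool.Agent.Y36.EG
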