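import Pool.Agent.Y36.EG.Mark

set_option autoImplicit false

namespace Pool.Agent.Y36.EG

open Real

/-- total weight of a word -/
def wl (L : List K4) : ℕ := (L.map (fun x => 7 + wt x)).sum

lemma list_bound (u : ℝ) (hu0 : 0 ≤ u) (hq : ∑ x : K4, u ^ (7 + wt x) < 1) :
    ∀ N : ℕ, ∀ A : Finset (List K4), (∀ L ∈ A, L.length ≤ N) →
      ∑ L ∈ A, u ^ wl L ≤ 1 / (1 - ∑ x : K4, u ^ (7 + wt x)) := by
  classical
  set q := ∑ x : K4, u ^ (7 + wt x) with hqdef
  have hq0 : 0 ≤ q := Finset.sum_nonneg (fun x _ => pow_nonneg hu0 _)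
  have h1q : 0 < 1 - q := by linarith
  have hB : (1 : ℝ) ≤ 1 / (1 - q) := by
    rw [le_div_iff₀ h1q]
    linarith
  intro N
  induction N with
  | zero =>
    intro A hA
    have hsub : A ⊆ {[]} := by
      intro L hL
      have := hA L hL
      rw [Finset.mem_singleton]
      exact List.length_eq_zero_iff.mp (by omega)
    calc ∑ L ∈ A, u ^ wl L ≤ ∑ L ∈ ({[]} : Finset (List K4)), u ^ wl L :=
          Finset.sum_le_sum_of_subset_of_nonneg hsub (fun _ _ _ => pow_nonneg hu0 _)
      _ = 1 := by simp [wl]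
      _ ≤ _ := hB
  | succ N ih =>
    intro A hA
    have hT : ∀ L ∈ A.image List.tail, L.length ≤ N := by
      intro L hL
      obtain ⟨L', hL', rfl⟩ := Finset.mem_image.mp hL
      have := hA L' hL'
      rw [List.length_tail]
      omega
    have hsub : A ⊆ {[]} ∪ (Finset.univ ×ˢ A.image List.tail).image
        (fun p : K4 × List K4 => p.1 :: p.2) := by
      intro L hL
      rw [Finset.mem_union, Finset.mem_singleton, Finset.mem_image]
      cases L with
      | nil => exact Or.inl rfl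
      | cons x L =>
        right
        refine ⟨(x, L), ?_, rfl⟩
        rw [Finset.mem_product]
        exact ⟨Finset.mem_univ _, Finset.mem_image.mpr ⟨_, hL, rfl⟩⟩
    calc ∑ L ∈ A, u ^ wl L ≤ ∑ L ∈ (({[]} : Finset (List K4)) ∪
          (Finset.univ ×ˢ A.image List.tail).image
            (fun p : K4 × List K4 => p.1 :: p.2)), u ^ wl L :=
          Finset.sum_le_sum_of_subset_of_nonneg hsub (fun _ _ _ => pow_nonneg hu0 _)
      _ ≤ ∑ L ∈ ({[]} : Finset (List K4)), u ^ wl L +
          ∑ L ∈ (Finset.univ ×ˢ A.image List.tail).image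
            (fun p : K4 × List K4 => p.1 :: p.2), u ^ wl L := by
          have h := Finset.sum_union_inter (s₁ := ({[]} : Finset (List K4)))
            (s₂ := (Finset.univ ×ˢ A.image List.tail).image
            (fun p : K4 × List K4 => p.1 :: p.2)) (f := fun L => u ^ wl L)
          have h2 : 0 ≤ ∑ L ∈ ({[]} : Finset (List K4)) ∩ (Finset.univ ×ˢ A.image List.tail).image
            (fun p : K4 × List K4 => p.1 :: p.2), u ^ wl L :=
              Finset.sum_nonneg (fun x _ => pow_nonneg hu0 _)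
          linarith
      _ = 1 + ∑ p ∈ Finset.univ ×ˢ A.image List.tail, u ^ (7 + wt p.1) * u ^ wl p.2 := by
          rw [Finset.sum_image]
          · simp [wl, pow_add]
          · rintro ⟨x, L⟩ _ ⟨y, L'⟩ _ h
            simpa using h
      _ = 1 + q * ∑ L ∈ A.image List.tail, u ^ wl L := by
          rw [Finset.sum_product, hqdef, Finset.sum_mul_sum]
      _ ≤ 1 + q * (1 / (1 - q)) := by
          have := mul_le_mul_of_nonneg_left (ih _ hT) hq0
          linarith
      _ = 1 / (1 - q) := by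
          field_simp
          ring

namespace Mk

variable (M : Mk)

/-- minimal weight -/
noncomputable def dd (g : M.G) : ℕ := sInf {n | M.Rep g n}

variable {M}

lemma dd_spec {g : M.G} {n : ℕ} (h : M.Rep g n) : M.Rep g (M.dd g) :=
  Nat.sInf_mem (s := {n | M.Rep g n}) ⟨n, h⟩

lemma dd_le {g : M.G} {n : ℕ} (h : M.Rep g n) : M.dd g ≤ n := Nat.sInf_le h

variable (M)

/-- the Poincaré sum of `M` at exponent `l` is bounded by `C` -/
def PB (l C : ℝ) : Prop :=
  ∀ E : Finset M.G, (∀ g ∈ E, ∃ n, M.Rep g n) → ∑ g ∈ E, exp (-(l * M.dd g)) ≤ C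

variable {M}

lemma Rep.word {g : M.G} {n : ℕ} (h : M.Rep g n) : ∃ (x : K4) (L : List K4),
    g = M.κ x * (L.map (fun y => M.a * M.κ y)).prod ∧ wt x + wl L ≤ n := by
  induction h with
  | base x n h => exact ⟨x, [], by simp, by simpa [wl] using h⟩
  | step g m h y n hn ih =>
    obtain ⟨x, L, h1, h2⟩ := ih
    refine ⟨x, L ++ [y], ?_, ?_⟩
    · rw [h1]
      simp [mul_assoc]
    · simp only [wl, List.map_append, List.map_cons, List.map_nil, List.sum_append,
        List.sum_cons, List.sum_nil] at h2 ⊢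
      omega

lemma pb_zero (l : ℝ) (hl : 0 ≤ l) (hq : ∑ x : K4, exp (-l) ^ (7 + wt x) < 1) :
    M.PB l (4 * (1 / (1 - ∑ x : K4, exp (-l) ^ (7 + wt x)))) := by
  classical
  intro E hE
  set u := exp (-l) with hu
  have hu0 : 0 ≤ u := (exp_pos _).le
  have hu1 : u ≤ 1 := by rw [hu, exp_le_one_iff]; linarith
  have h1 : ∀ g : M.G, ∃ p : K4 × List K4, (g ∈ E → g = M.κ p.1 *
      (p.2.map (fun y => M.a * M.κ y)).prod ∧ wt p.1 + wl p.2 ≤ M.dd g) := by
    intro g
    by_cases hg : g ∈ E
    · obtain ⟨n, hn⟩ := hE g hg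
      obtain ⟨x, L, h1, h2⟩ := (dd_spec hn).word
      exact ⟨(x, L), fun _ => ⟨h1, h2⟩⟩
    · exact ⟨default, fun h => absurd h hg⟩
  choose f hf using h1
  have hinj : Set.InjOn f (E : Set M.G) := by
    intro g hg g' hg' h
    rw [(hf g hg).1, (hf g' hg').1, h]
  set A := (E.image f).image Prod.snd with hA
  obtain ⟨N, hN⟩ : ∃ N : ℕ, ∀ L ∈ A, L.length ≤ N := by
    refine ⟨A.sup List.length, fun L hL => Finset.le_sup (f := List.length) hL⟩
  have hb := list_bound u hu0 hq N A hN
  have hexp : ∀ n : ℕ, exp (-(l * n)) = u ^ n := by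
    intro n
    rw [hu, ← exp_nat_mul]
    congr 1
    ring
  calc ∑ g ∈ E, exp (-(l * M.dd g)) ≤ ∑ g ∈ E, u ^ wl (f g).2 := by
        refine Finset.sum_le_sum (fun g hg => ?_)
        rw [hexp]
        exact pow_le_pow_of_le_one hu0 hu1 (by have := (hf g hg).2; omega)
    _ = ∑ p ∈ E.image f, u ^ wl p.2 := by
        rw [Finset.sum_image hinj]
    _ ≤ ∑ p ∈ Finset.univ ×ˢ A, u ^ wl p.2 := by
        refine Finset.sum_le_sum_of_subset_of_nonneg ?_ (fun _ _ _ => pow_nonneg hu0 _)
        intro p hp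
        rw [Finset.mem_product]
        exact ⟨Finset.mem_univ _, Finset.mem_image_of_mem _ hp⟩
    _ = 4 * ∑ L ∈ A, u ^ wl L := by
        rw [Finset.sum_product]
        simp only [Finset.sum_const]
        rw [show (Finset.univ : Finset K4).card = 4 from by decide]
        norm_num
    _ ≤ _ := by linarith

lemma pb_next {l C : ℝ} (hl : 0 ≤ l) (h : M.PB l C) :
    M.next.PB (5 / 6 * l) (2 * (exp (35 / 6 * l) * (C * C))) := by
  classical
  intro E hE
  have key : ∀ g ∈ E, (∃ n, M.Rep (SemidirectProduct.left g).1 n) ∧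
      (∃ n, M.Rep (SemidirectProduct.left g).2 n) ∧
      exp (-(5 / 6 * l * M.next.dd g)) ≤ exp (35 / 6 * l) *
        (exp (-(l * M.dd (SemidirectProduct.left g).1)) *
          exp (-(l * M.dd (SemidirectProduct.left g).2))) := by
    intro g hg
    obtain ⟨n, hn⟩ := hE g hg
    obtain ⟨m0, m1, h0, h1, h2⟩ := next_contr (dd_spec hn)
    refine ⟨⟨_, h0⟩, ⟨_, h1⟩, ?_⟩
    have h3 := dd_le h0
    have h4 := dd_le h1
    rw [← exp_add, ← exp_add, exp_le_exp]
    have h5 : 6 * (M.dd (SemidirectProduct.left g).1 + M.dd (SemidirectProduct.left g).2) ≤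
      5 * (M.next.dd g + 7) := by omega
    have h6 : (6 : ℝ) * (M.dd (SemidirectProduct.left g).1 + M.dd (SemidirectProduct.left g).2) ≤
      5 * (M.next.dd g + 7) := by exact_mod_cast h5
    have h7 := mul_le_mul_of_nonneg_left h6 hl
    linarith
  set E0 := E.image (fun g => (SemidirectProduct.left g).1) with hE0
  set E1 := E.image (fun g => (SemidirectProduct.left g).2) with hE1
  set F : M.G → ℝ := fun x => exp (-(l * M.dd x)) with hF
  have hF0 : ∀ x, 0 ≤ F x := fun x => (exp_pos _).le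
  have hs0 : ∑ x ∈ E0, F x ≤ C := h E0 (by
    intro x hx
    obtain ⟨g, hg, rfl⟩ := Finset.mem_image.mp hx
    exact (key g hg).1)
  have hs1 : ∑ x ∈ E1, F x ≤ C := h E1 (by
    intro x hx
    obtain ⟨g, hg, rfl⟩ := Finset.mem_image.mp hx
    exact (key g hg).2.1)
  have hs00 : 0 ≤ ∑ x ∈ E0, F x := Finset.sum_nonneg (fun x _ => hF0 x)
  have hs11 : 0 ≤ ∑ x ∈ E1, F x := Finset.sum_nonneg (fun x _ => hF0 x)
  let f : M.next.G → (M.G × M.G) × C2 := fun g =>
    (SemidirectProduct.left g, SemidirectProduct.right g)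
  have hinj : Function.Injective f := by
    intro g g' hgg
    exact SemidirectProduct.ext (congrArg Prod.fst hgg) (congrArg Prod.snd hgg)
  calc ∑ g ∈ E, exp (-(5 / 6 * l * M.next.dd g))
      ≤ ∑ g ∈ E, exp (35 / 6 * l) * (F (f g).1.1 * F (f g).1.2) :=
        Finset.sum_le_sum (fun g hg => (key g hg).2.2)
    _ = ∑ p ∈ E.image f, exp (35 / 6 * l) * (F p.1.1 * F p.1.2) := by
        rw [Finset.sum_image (fun a _ b _ h => hinj h)]
    _ ≤ ∑ p ∈ (E0 ×ˢ E1) ×ˢ (Finset.univ : Finset C2),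
          exp (35 / 6 * l) * (F p.1.1 * F p.1.2) := by
        refine Finset.sum_le_sum_of_subset_of_nonneg ?_
          (fun p _ _ => mul_nonneg (exp_pos _).le (mul_nonneg (hF0 _) (hF0 _)))
        intro p hp
        obtain ⟨g, hg, rfl⟩ := Finset.mem_image.mp hp
        rw [Finset.mem_product, Finset.mem_product]
        exact ⟨⟨Finset.mem_image.mpr ⟨g, hg, rfl⟩, Finset.mem_image.mpr ⟨g, hg, rfl⟩⟩,
          Finset.mem_univ _⟩
    _ = 2 * (exp (35 / 6 * l) * ((∑ x ∈ E0, F x) * (∑ x ∈ E1, F x))) := by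
        rw [Finset.sum_product]
        simp only [Finset.sum_const, nsmul_eq_mul]
        rw [show (Finset.univ : Finset C2).card = 2 from by decide, Finset.sum_product,
          Finset.sum_mul_sum]
        simp only [Finset.mul_sum]
        norm_num
    _ ≤ _ := by
        have : (∑ x ∈ E0, F x) * (∑ x ∈ E1, F x) ≤ C * C :=
          mul_le_mul hs0 hs1 hs11 (hs00.trans hs0)
        have h2 := mul_le_mul_of_nonneg_left this (exp_pos (35 / 6 * l)).le
        linarith

end Mk

end Pool.Agent.Y36.EG
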